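import Mathlib
import Pool.Agent.Y355.CO.Core
import Pool.Agent.H448R3.Val
import Pool.Agent.H572R3.Force3
import Pool.Agent.Results.MP_4c1ea5_lc.ZFCClosed

set_option autoImplicit false

namespace Pool.Agent.Results.MP_4c1ea5_lc.MuchnikOrder

open Pool.Agent.Results.MP_4c1ea5_lc.ZFCClosed
open Pool.Agent.H448R3 Pool.Agent.Helper743 Pool.Agent.Y355.CO
open scoped Cardinal

/-- the sets which compute no member of `F` -/
def Avoiding (F : Set (Set ℕ)) : Set (Set ℕ) := {A | ∀ C ∈ F, ¬ TuringLE C A}

/-- the subspace of the space of coarse similarity classes generated by the sets which compute no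
member of `F` -/
def Sub (F : Set (Set ℕ)) : Set CoarseSpace := generated (Avoiding F)

/-- Muchnik reducibility: every member of `H` computes a member of `F` -/
def MuchnikLE (F H : Set (Set ℕ)) : Prop := ∀ D ∈ H, ∃ C ∈ F, TuringLE C D

/-- the nonempty proper closed subspaces generated by Turing-invariant sets -/
def ClosedSubspaces : Set (Set CoarseSpace) :=
  {X | X.Nonempty ∧ X ≠ Set.univ ∧ IsClosed X ∧ ∃ U, TuringInvariant U ∧ generated U = X}

theorem le_refl' (A : Set ℕ) : TuringLE A A := le_iff.2 (TR.refl _)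

theorem le_trans' {A B C : Set ℕ} (h1 : TuringLE A B) (h2 : TuringLE B C) : TuringLE A C :=
  le_iff.2 ((le_iff.1 h1).trans (le_iff.1 h2))

theorem code_le (C : Set ℕ) : TuringLE (code C) C := by
  rw [le_iff]
  have h := (Computable.recT (O := {((ind C : ℕ → ℕ) : ℕ →. ℕ)}) log2_comp)
  have h2 := RecT.comp (TR.refl (ind C)) h
  have e : (fun n => ind C (Nat.log 2 n)) = ind (code C) := by
    funext j
    rfl
  rw [e] at h2
  exact h2

/-- the class of `code C` is in no subspace generated by sets not computing `C` -/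
theorem code_notMem {F : Set (Set ℕ)} {C : Set ℕ} (hC : C ∈ F) : cls (code C) ∉ Sub F := by
  rintro ⟨B, hB, h2⟩
  exact hB C hC (code_above (Quotient.exact h2))

theorem invariant (F : Set (Set ℕ)) : TuringInvariant (Avoiding F) := by
  intro A hA B h1 h2 C hC hCB
  exact hA C hC (le_trans' hCB h2)

theorem sub_iff (F H : Set (Set ℕ)) : Sub F ⊆ Sub H ↔ MuchnikLE F H := by
  constructor
  · intro h D hD
    by_contra hcon
    push Not at hcon
    apply code_notMem hD
    apply h
    exact ⟨code D, fun C hC hCD => hcon C hC (le_trans' hCD (code_le D)), rfl⟩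
  · rintro h _ ⟨A, hA, rfl⟩
    refine ⟨A, fun D hD hDA => ?_, rfl⟩
    obtain ⟨C, hC, hCD⟩ := h D hD
    exact hA C hC (le_trans' hCD hDA)

theorem univ_iff (F : Set (Set ℕ)) : Sub F = Set.univ ↔ F = ∅ := by
  constructor
  · intro h
    by_contra hne
    obtain ⟨C, hC⟩ := Set.nonempty_iff_ne_empty.2 hne
    exact code_notMem hC (h ▸ Set.mem_univ _)
  · rintro rfl
    refine Set.eq_univ_of_forall fun a => ?_
    obtain ⟨A, rfl⟩ : ∃ A, cls A = a := Quotient.exists_rep a
    exact ⟨A, fun C hC => absurd hC (Set.notMem_empty C), rfl⟩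

theorem empty_le (A : Set ℕ) : TuringLE ∅ A := by
  rw [le_iff]
  have e : ind (∅ : Set ℕ) = fun _ => 0 := by
    funext n
    unfold ind
    rw [if_neg (by simp)]
  rw [e]
  exact Computable.recT (Computable.const 0)

theorem nonempty_iff (F : Set (Set ℕ)) : (Sub F).Nonempty ↔ ∀ C ∈ F, ¬ TuringLE C ∅ := by
  constructor
  · rintro ⟨_, A, hA, rfl⟩ C hC h
    exact hA C hC (le_trans' h (empty_le A))
  · intro h
    exact ⟨cls ∅, ∅, h, rfl⟩

/-- the key step: countably many cones are avoided at once -/
theorem closure_inter (c : ℕ → Set ℕ) (a : CoarseSpace)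
    (h : ∀ i, a ∈ closure (Sub {c i})) : a ∈ Sub (Set.range c) := by
  classical
  obtain ⟨A, rfl⟩ : ∃ A, cls A = a := Quotient.exists_rep a
  let b : ℕ → Bool := fun j => decide (j ∈ A)
  have hb : ∀ j, bit (b j) = ind A j := ind_bit A b (fun j => by simp [b])
  have hb' : (fun j => bit (b j)) = ind A := funext hb
  obtain ⟨z, hz1, hz2⟩ := exists_avoid_all (fun i => ind (c i)) b (by
    intro i N
    have ha := h i
    rw [Metric.mem_closure_iff] at ha
    obtain ⟨s, ⟨X, hX, rfl⟩, hd⟩ := ha (1 / ((N : ℝ) + 1)) (by positivity)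
    rw [dist_comm, dist_cls] at hd
    obtain ⟨m0, hm0⟩ := few N hd
    let x : ℕ → Bool := fun j => decide (j ∈ X)
    have hx : (fun j => bit (x j)) = ind X := funext (ind_bit X x (fun j => by simp [x]))
    refine ⟨x, m0, ?_, ?_⟩
    · rw [hx]; exact fun h => hX (c i) rfl (le_iff.2 h)
    · rw [hx, hb']; exact hm0)
  let Z : Set ℕ := {j | z j = true}
  have hZ : (fun j => bit (z j)) = ind Z := funext (ind_bit Z z (fun j => Iff.rfl))
  rw [hZ, hb'] at hz2
  refine ⟨Z, ?_, ?_⟩
  · rintro C ⟨i, rfl⟩ h
    have := hz1 i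
    rw [hZ] at this
    exact this (le_iff.1 h)
  · exact Quotient.sound (similar_of_er hz2)

theorem sub_mono {F H : Set (Set ℕ)} (h : F ⊆ H) : Sub H ⊆ Sub F := by
  rintro _ ⟨A, hA, rfl⟩
  exact ⟨A, fun C hC => hA C (h hC), rfl⟩

theorem inter (F : Set (Set ℕ)) (hF : F.Countable) :
    Sub F = ⋂ C ∈ F, Sub {C} ∧ IsClosed (Sub F) := by
  rcases F.eq_empty_or_nonempty with rfl | hne
  · have h : Sub (∅ : Set (Set ℕ)) = Set.univ := (univ_iff ∅).2 rfl
    rw [h]
    simp
  · obtain ⟨c, rfl⟩ := hF.exists_eq_range hne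
    constructor
    · apply Set.Subset.antisymm
      · intro a ha
        simp only [Set.mem_iInter]
        intro C hC
        exact sub_mono (Set.singleton_subset_iff.2 hC) ha
      · intro a ha
        simp only [Set.mem_iInter] at ha
        exact closure_inter c a (fun i => subset_closure (ha (c i) ⟨i, rfl⟩))
    · refine isClosed_of_closure_subset fun a ha => closure_inter c a (fun i => ?_)
      exact closure_mono (sub_mono (Set.singleton_subset_iff.2 (Set.mem_range_self i))) ha

theorem countable_below (A : Set ℕ) : {C : Set ℕ | TuringLE C A}.Countable := by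
  have h := Pool.Agent.H572R3.countable_TR (ind A)
  have hinj : Function.Injective (fun C : Set ℕ => ind C) := by
    intro C D h
    ext n
    have h1 : ind C n = ind D n := congrFun h n
    unfold ind at h1
    by_cases hC : n ∈ C <;> by_cases hD : n ∈ D
    · tauto
    · rw [if_pos hC, if_neg hD] at h1; exact absurd h1 one_ne_zero
    · rw [if_neg hC, if_pos hD] at h1; exact absurd h1 zero_ne_one
    · tauto
  refine (h.preimage hinj).mono ?_
  intro C hC
  exact le_iff.1 hC

theorem continuum_le : 𝔠 ≤ #ClosedSubspaces := by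
  classical
  let S : Set (Set ℕ) := {C | ¬ TuringLE C ∅}
  let f : S → ClosedSubspaces := fun C => ⟨Sub {C.1}, by
    refine ⟨(nonempty_iff _).2 ?_, ?_, (inter _ (Set.countable_singleton _)).2,
      Avoiding {C.1}, invariant _, rfl⟩
    · intro D hD
      rw [Set.mem_singleton_iff] at hD
      rw [hD]; exact C.2
    · intro h
      exact Set.singleton_ne_empty _ ((univ_iff _).1 h)⟩
  have hfib : ∀ y : ClosedSubspaces, (f ⁻¹' {y}).Countable := by
    intro y
    rcases (f ⁻¹' {y}).eq_empty_or_nonempty with h | ⟨D, hD⟩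
    · rw [h]; exact Set.countable_empty
    · have h1 : (Subtype.val '' (f ⁻¹' {y})).Countable := by
        refine (countable_below D.1).mono ?_
        rintro _ ⟨C, hC, rfl⟩
        have h2 : f C = f D := by
          rw [Set.mem_preimage, Set.mem_singleton_iff] at hC hD
          rw [hC, hD]
        have h3 : Sub {C.1} ⊆ Sub {D.1} := (congrArg Subtype.val h2).subset
        obtain ⟨E, hE, h4⟩ := (sub_iff _ _).1 h3 D.1 rfl
        rw [Set.mem_singleton_iff] at hE
        rw [hE] at h4
        exact h4
      exact Set.countable_of_injective_of_countable_image Subtype.val_injective.injOn h1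
  have hS : #S = 𝔠 := by
    have h1 : #(Set ℕ) = 𝔠 := by simp
    have h2 : #(Sᶜ : Set (Set ℕ)) ≤ ℵ₀ := by
      rw [Cardinal.le_aleph0_iff_set_countable]
      refine (countable_below ∅).mono ?_
      intro C hC
      by_contra h
      exact hC h
    have h3 : #S + #(Sᶜ : Set (Set ℕ)) = #(Set ℕ) := Cardinal.mk_sum_compl S
    rw [h1] at h3
    by_contra hne
    have h4 : #S < 𝔠 := lt_of_le_of_ne (by rw [← h3]; exact self_le_add_right _ _) hne
    have h5 : #S + #(Sᶜ : Set (Set ℕ)) < 𝔠 :=
      Cardinal.add_lt_of_lt Cardinal.aleph0_le_continuum h4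
        (lt_of_le_of_lt h2 Cardinal.aleph0_lt_continuum)
    exact absurd h3 h5.ne
  have h6 : #S ≤ #ClosedSubspaces * ℵ₀ := by
    have h7 : (Set.univ : Set S) = ⋃ y : ClosedSubspaces, f ⁻¹' {y} := by
      ext C; simp
    have h8 : #S = #(Set.univ : Set S) := Cardinal.mk_univ.symm
    rw [h8, h7]
    refine (Cardinal.mk_iUnion_le _).trans ?_
    refine mul_le_mul_right ?_ _
    exact ciSup_le' fun y => Cardinal.le_aleph0_iff_set_countable.2 (hfib y)
  rw [hS] at h6
  by_contra hlt
  push Not at hlt
  have h9 : #ClosedSubspaces * ℵ₀ < 𝔠 :=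
    Cardinal.mul_lt_of_lt Cardinal.aleph0_le_continuum hlt Cardinal.aleph0_lt_continuum
  exact absurd h6 (not_le.2 h9)

/-- **ZFC proves:** for every countable family `F` of sets, the sets which compute no member of
`F` form a Turing-invariant class generating a closed subspace `Sub F`, which is nonempty exactly
if no member of `F` is computable, is proper exactly if `F` is not empty, and is the intersection
of the subspaces `Sub {C}`, `C ∈ F`. For arbitrary families, `Sub F ⊆ Sub H` exactly if `F` is
Muchnik reducible to `H`; for single sets this is Turing reducibility. There are at least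
continuum many nonempty proper closed subspaces generated by Turing-invariant sets. -/
theorem result :
    (∀ F : Set (Set ℕ), F.Countable → IsClosed (Sub F) ∧ Sub F = ⋂ C ∈ F, Sub {C}) ∧
    (∀ F : Set (Set ℕ), TuringInvariant (Avoiding F) ∧
      ((Sub F).Nonempty ↔ ∀ C ∈ F, ¬ TuringLE C ∅) ∧ (Sub F = Set.univ ↔ F = ∅)) ∧
    (∀ F H : Set (Set ℕ), Sub F ⊆ Sub H ↔ MuchnikLE F H) ∧
    (∀ C D : Set ℕ, Sub {C} ⊆ Sub {D} ↔ TuringLE C D) ∧
    𝔠 ≤ #ClosedSubspaces := by
  refine ⟨fun F hF => ⟨(inter F hF).2, (inter F hF).1⟩,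
    fun F => ⟨invariant F, nonempty_iff F, univ_iff F⟩, sub_iff, ?_, continuum_le⟩
  intro C D
  rw [sub_iff]
  constructor
  · intro h
    obtain ⟨E, hE, h4⟩ := h D rfl
    rw [Set.mem_singleton_iff] at hE
    rw [hE] at h4
    exact h4
  · intro h E hE
    rw [Set.mem_singleton_iff] at hE
    rw [hE]
    exact ⟨C, rfl, h⟩

end Pool.Agent.Results.MP_4c1ea5_lc.MuchnikOrder
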